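import Pool.Agent.Lib.LD.Def

/-!
# LD7, file Side: uncrossed separations against other separations (MP_33911d, form D)
-/

set_option autoImplicit false

namespace LD7

open Finset H98M LD

variable {V : Type*} [DecidableEq V]

variable {E : Finset (Sym2 V)} {Y W : Finset V} {x y u v : V} {P Q P' Q' : Finset V}

theorem Sep.mem (h : Sep E Y x y P Q) (a : V) : a ∈ Y ↔ a = x ∨ a = y ∨ a ∈ P ∨ a ∈ Q := by
  rw [← h.eq]
  simp

theorem Sep.noE' (h : Sep E Y x y P Q) {a b : V} (ha : a ∈ Q) (hb : b ∈ P) : s(a, b) ∉ E :=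
  h.symm.noE a ha b hb

theorem mkSep (ne : x ≠ y) (xP : x ∉ P) (xQ : x ∉ Q) (yP : y ∉ P) (yQ : y ∉ Q) (P0 : P.Nonempty)
    (Q0 : Q.Nonempty) (dis : ∀ a ∈ P, a ∉ Q) (cov : ∀ a, a ∈ Y ↔ a = x ∨ a = y ∨ a ∈ P ∨ a ∈ Q)
    (noE : ∀ a ∈ P, ∀ b ∈ Q, s(a, b) ∉ E) : Sep E Y x y P Q where
  ne := ne
  xP := xP
  xQ := xQ
  yP := yP
  yQ := yQ
  P0 := P0
  Q0 := Q0
  dis := Finset.disjoint_left.2 fun a ha => dis a ha
  eq := by
    ext a
    rw [cov a]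
    simp
  noE := noE

theorem mem_red {a b : V} : s(a, b) ∈ red E Y x y Q ↔
    s(a, b) = s(x, y) ∨ (s(a, b) ∈ E ∧ (a ∈ Y ∧ a ∉ Q) ∧ (b ∈ Y ∧ b ∉ Q)) := by
  simp [red, Finset.mk_mem_sym2_iff]

/-- a nonempty set attached only at `z`. -/
theorem cutY (hT : TCY E Y) {A : Finset V} {z w : V} (hA : A.Nonempty) (hAY : A ⊆ Y) (hz : z ∉ A)
    (hzY : z ∈ Y) (hw : w ∉ A) (hwY : w ∈ Y) (hwz : w ≠ z)
    (h : ∀ a ∈ A, ∀ b ∈ Y, b ∉ A → b ≠ z → s(a, b) ∉ E) : False := by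
  refine hT.conn' z hzY ⟨A, (Y.erase z) \ A, hA, ⟨w, by simp [hw, hwz, hwY]⟩, disjoint_sdiff,
    ?_, ?_⟩
  · ext a
    simp only [mem_union, mem_sdiff, mem_erase]
    constructor
    · rintro (ha | ha)
      · refine ⟨?_, hAY ha⟩
        rintro rfl
        exact hz ha
      · exact ha.1
    · intro ha
      by_cases h' : a ∈ A
      · exact Or.inl h'
      · exact Or.inr ⟨ha, h'⟩
  · intro a ha b hb
    simp only [mem_sdiff, mem_erase] at hb
    exact h a ha b hb.1.2 hb.2 hb.1.1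

/-- `z0 ∈ P'`, `z1 ∉ Q'`: `Q` is inside `P'`. -/
theorem side0 (hT : TCY E Y) {z0 z1 : V} (h : Sep E Y z0 z1 P Q) (h' : Sep E Y u v P' Q')
    (huQ : u ∉ Q) (hvQ : v ∉ Q) (h0 : z0 ∈ P') (h1 : z1 ∉ Q') : ∀ a ∈ Q, a ∈ P' := by
  intro a ha
  have hd' := Finset.disjoint_left.1 h'.dis
  have key : ∀ q ∈ Q, q ∉ Q' := by
    intro q hq hq'
    refine cutY hT (A := Q ∩ Q') (z := z1) (w := z0) ⟨q, mem_inter.2 ⟨hq, hq'⟩⟩ ?_ ?_ ?_ ?_ ?_ ?_ ?_
    · intro b hb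
      exact (Sep.mem h b).2 (Or.inr (Or.inr (Or.inr (mem_inter.1 hb).1)))
    · intro hb
      exact h.yQ (mem_inter.1 hb).1
    · exact (Sep.mem h z1).2 (Or.inr (Or.inl rfl))
    · intro hb
      exact h.xQ (mem_inter.1 hb).1
    · exact (Sep.mem h z0).2 (Or.inl rfl)
    · exact h.ne
    · intro c hc b hbY hb hbz
      obtain ⟨hcQ, hcQ'⟩ := mem_inter.1 hc
      rcases (Sep.mem h b).1 hbY with rfl | rfl | hbP | hbQ
      · exact Sep.noE' h' hcQ' h0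
      · exact absurd rfl hbz
      · exact Sep.noE' h hcQ hbP
      · rcases (Sep.mem h' b).1 hbY with rfl | rfl | hbP | hbQ2
        · exact absurd hbQ huQ
        · exact absurd hbQ hvQ
        · exact Sep.noE' h' hcQ' hbP
        · exact absurd (mem_inter.2 ⟨hbQ, hbQ2⟩) hb
  have haY : a ∈ Y := (Sep.mem h a).2 (Or.inr (Or.inr (Or.inr ha)))
  rcases (Sep.mem h' a).1 haY with rfl | rfl | hb | hb
  · exact absurd ha huQ
  · exact absurd ha hvQ
  · exact hb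
  · exact absurd hb (key a ha)

/-- no separation at `{u, v}` with `u ∈ P`, `v ∈ Q`. -/
theorem nocross1 (hT : TCY E Y) (h : Sep E Y x y P Q) (h' : Sep E Y u v P' Q')
    (hu : u ∈ P) (hv : v ∈ Q) (hx : x ∈ P') (hy : y ∈ P') : False := by
  have hd := Finset.disjoint_left.1 h.dis
  have hd' := Finset.disjoint_left.1 h'.dis
  obtain ⟨q, hq⟩ := h'.Q0
  have hqY : q ∈ Y := (Sep.mem h' q).2 (Or.inr (Or.inr (Or.inr hq)))
  have hxY : x ∈ Y := (Sep.mem h x).2 (Or.inl rfl)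
  have huY : u ∈ Y := (Sep.mem h' u).2 (Or.inl rfl)
  have hvY : v ∈ Y := (Sep.mem h' v).2 (Or.inr (Or.inl rfl))
  rcases (Sep.mem h q).1 hqY with rfl | rfl | hqP | hqQ
  · exact hd' hx hq
  · exact hd' hy hq
  · refine cutY hT (A := Q' ∩ P) (z := u) (w := x) ⟨q, mem_inter.2 ⟨hq, hqP⟩⟩ ?_ ?_ huY ?_ hxY ?_ ?_
    · intro b hb
      exact (Sep.mem h b).2 (Or.inr (Or.inr (Or.inl (mem_inter.1 hb).2)))
    · intro hb
      exact h'.xQ (mem_inter.1 hb).1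
    · intro hb
      exact h.xP (mem_inter.1 hb).2
    · rintro rfl
      exact h.xP hu
    · intro c hc b hbY hb hbz
      obtain ⟨hcQ', hcP⟩ := mem_inter.1 hc
      rcases (Sep.mem h' b).1 hbY with rfl | rfl | hbP | hbQ
      · exact absurd rfl hbz
      · exact h.noE c hcP _ hv
      · exact Sep.noE' h' hcQ' hbP
      · rcases (Sep.mem h b).1 hbY with rfl | rfl | hbP2 | hbQ2
        · exact absurd hbQ (hd' hx)
        · exact absurd hbQ (hd' hy)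
        · exact absurd (mem_inter.2 ⟨hbQ, hbP2⟩) hb
        · exact h.noE c hcP b hbQ2
  · refine cutY hT (A := Q' ∩ Q) (z := v) (w := x) ⟨q, mem_inter.2 ⟨hq, hqQ⟩⟩ ?_ ?_ hvY ?_ hxY ?_ ?_
    · intro b hb
      exact (Sep.mem h b).2 (Or.inr (Or.inr (Or.inr (mem_inter.1 hb).2)))
    · intro hb
      exact h'.yQ (mem_inter.1 hb).1
    · intro hb
      exact h.xQ (mem_inter.1 hb).2
    · rintro rfl
      exact h.xQ hv
    · intro c hc b hbY hb hbz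
      obtain ⟨hcQ', hcQ⟩ := mem_inter.1 hc
      rcases (Sep.mem h' b).1 hbY with rfl | rfl | hbP | hbQ
      · exact Sep.noE' h hcQ hu
      · exact absurd rfl hbz
      · exact Sep.noE' h' hcQ' hbP
      · rcases (Sep.mem h b).1 hbY with rfl | rfl | hbP2 | hbQ2
        · exact absurd hbQ (hd' hx)
        · exact absurd hbQ (hd' hy)
        · exact Sep.noE' h hcQ hbP2
        · exact absurd (mem_inter.2 ⟨hbQ, hbQ2⟩) hb

/-- `x` and `y` are not on different sides. -/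
theorem same (hun : Unc E Y x y) (h : Sep E Y x y P Q) (h' : Sep E Y u v P' Q') :
    (x ∉ P' ∨ y ∉ Q') ∧ (x ∉ Q' ∨ y ∉ P') := by
  constructor
  · by_contra hc
    push Not at hc
    exact hun u v P' Q' h' hc
  · by_contra hc
    push Not at hc
    exact hun u v Q' P' h'.symm hc

theorem nocross (hT : TCY E Y) (hun : Unc E Y x y) (h : Sep E Y x y P Q) (h' : Sep E Y u v P' Q')
    (hu : u ∈ P) (hv : v ∈ Q) : False := by
  have hxY : x ∈ Y := (Sep.mem h x).2 (Or.inl rfl)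
  have hyY : y ∈ Y := (Sep.mem h y).2 (Or.inr (Or.inl rfl))
  obtain ⟨h1, h2⟩ := same hun h h'
  rcases (Sep.mem h' x).1 hxY with rfl | rfl | hx | hx
  · exact h.xP hu
  · exact h.xQ hv
  · rcases (Sep.mem h' y).1 hyY with rfl | rfl | hy | hy
    · exact h.yP hu
    · exact h.yQ hv
    · exact nocross1 hT h h' hu hv hx hy
    · exact h1.elim (fun h => h hx) fun h => h hy
  · rcases (Sep.mem h' y).1 hyY with rfl | rfl | hy | hy
    · exact h.yP hu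
    · exact h.yQ hv
    · exact h2.elim (fun h => h hx) fun h => h hy
    · exact nocross1 hT h h'.symm hu hv hx hy

/-- one-sided form: `u, v ∉ Q`. -/
theorem side1 (hT : TCY E Y) (hun : Unc E Y x y) (h : Sep E Y x y P Q) (h' : Sep E Y u v P' Q')
    (huQ : u ∉ Q) (hvQ : v ∉ Q) (hne : u ∈ P ∨ v ∈ P) :
    (∀ a, (a ∈ Q ∨ ((a = x ∨ a = y) ∧ a ≠ u ∧ a ≠ v)) → a ∈ P') ∨
      (∀ a, (a ∈ Q ∨ ((a = x ∨ a = y) ∧ a ≠ u ∧ a ≠ v)) → a ∈ Q') := by
  have hxY : x ∈ Y := (Sep.mem h x).2 (Or.inl rfl)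
  have hyY : y ∈ Y := (Sep.mem h y).2 (Or.inr (Or.inl rfl))
  obtain ⟨h1, h2⟩ := same hun h h'
  have hx := (Sep.mem h' x).1 hxY
  have hy := (Sep.mem h' y).1 hyY
  have hd' := Finset.disjoint_left.1 h'.dis
  -- one of `x`, `y` is not in `{u, v}`
  have hfree : (x ≠ u ∧ x ≠ v) ∨ (y ≠ u ∧ y ≠ v) := by
    by_contra hc
    have hxy := h.ne
    have hxP := h.xP
    have hyP := h.yP
    have huv := h'.ne
    rw [not_or, not_and_or, not_and_or, not_not, not_not, not_not, not_not] at hc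
    rcases hc with ⟨rfl | rfl, rfl | rfl⟩
    · exact hxy rfl
    · exact hne.elim hxP hyP
    · exact hne.elim hyP hxP
    · exact hxy rfl
  -- the two symmetric conclusions
  have fin : ∀ P' Q' : Finset V, Sep E Y u v P' Q' → x ∉ Q' → y ∉ Q' →
      (∀ a ∈ Q, a ∈ P') → ∀ a, (a ∈ Q ∨ ((a = x ∨ a = y) ∧ a ≠ u ∧ a ≠ v)) → a ∈ P' := by
    intro P' Q' hs h3 h4 h5 a ha
    rcases ha with ha | ⟨rfl | rfl, ha1, ha2⟩
    · exact h5 a ha
    · rcases (Sep.mem hs a).1 hxY with h6 | h6 | h6 | h6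
      · exact absurd h6 ha1
      · exact absurd h6 ha2
      · exact h6
      · exact absurd h6 h3
    · rcases (Sep.mem hs a).1 hyY with h6 | h6 | h6 | h6
      · exact absurd h6 ha1
      · exact absurd h6 ha2
      · exact h6
      · exact absurd h6 h4
  rcases hfree with ⟨h3, h4⟩ | ⟨h3, h4⟩
  · have hx' : x ∈ P' ∨ x ∈ Q' := by tauto
    rcases hx' with hx' | hx'
    · have hxQ' : x ∉ Q' := hd' hx'
      have hyQ' : y ∉ Q' := by tauto
      exact Or.inl (fin P' Q' h' hxQ' hyQ' (side0 hT h h' huQ hvQ hx' hyQ'))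
    · have hxP' : x ∉ P' := fun h => hd' h hx'
      have hyP' : y ∉ P' := by tauto
      exact Or.inr (fin Q' P' h'.symm hxP' hyP' (side0 hT h h'.symm huQ hvQ hx' hyP'))
  · have hy' : y ∈ P' ∨ y ∈ Q' := by tauto
    rcases hy' with hy' | hy'
    · have hyQ' : y ∉ Q' := hd' hy'
      have hxQ' : x ∉ Q' := by tauto
      exact Or.inl (fin P' Q' h' hxQ' hyQ' (side0 hT h.flip h' huQ hvQ hy' hxQ'))
    · have hyP' : y ∉ P' := fun h => hd' h hy'
      have hxP' : x ∉ P' := by tauto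
      exact Or.inr (fin Q' P' h'.symm hxP' hyP' (side0 hT h.flip h'.symm huQ hvQ hy' hxP'))

/-- **(S6)** the two-sided form. -/
theorem side (hT : TCY E Y) (hun : Unc E Y x y) (h : Sep E Y x y P Q) (h' : Sep E Y u v P' Q')
    (hne : ¬ (u = x ∧ v = y)) (hne' : ¬ (u = y ∧ v = x)) :
    (u ∉ Q ∧ v ∉ Q ∧ (u ∈ P ∨ v ∈ P) ∧
      ((∀ a, (a ∈ Q ∨ ((a = x ∨ a = y) ∧ a ≠ u ∧ a ≠ v)) → a ∈ P') ∨
      (∀ a, (a ∈ Q ∨ ((a = x ∨ a = y) ∧ a ≠ u ∧ a ≠ v)) → a ∈ Q'))) ∨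
    (u ∉ P ∧ v ∉ P ∧ (u ∈ Q ∨ v ∈ Q) ∧
      ((∀ a, (a ∈ P ∨ ((a = x ∨ a = y) ∧ a ≠ u ∧ a ≠ v)) → a ∈ P') ∨
      (∀ a, (a ∈ P ∨ ((a = x ∨ a = y) ∧ a ≠ u ∧ a ≠ v)) → a ∈ Q'))) := by
  have huY : u ∈ Y := (Sep.mem h' u).2 (Or.inl rfl)
  have hvY : v ∈ Y := (Sep.mem h' v).2 (Or.inr (Or.inl rfl))
  have hd := Finset.disjoint_left.1 h.dis
  have hn1 : ¬ (u ∈ P ∧ v ∈ Q) := fun hc => nocross hT hun h h' hc.1 hc.2
  have hn2 : ¬ (u ∈ Q ∧ v ∈ P) := fun hc => nocross hT hun h h'.flip hc.2 hc.1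
  have huv := h'.ne
  have hxP := h.xP
  have hxQ := h.xQ
  have hyP := h.yP
  have hyQ := h.yQ
  rcases (Sep.mem h u).1 huY with hu | hu | hu | hu <;>
    rcases (Sep.mem h v).1 hvY with hv | hv | hv | hv
  · exact absurd (hu.trans hv.symm) huv
  · exact absurd ⟨hu, hv⟩ hne
  · have h1 : u ∉ Q := hu ▸ hxQ
    have h2 : v ∉ Q := hd hv
    exact Or.inl ⟨h1, h2, Or.inr hv, side1 hT hun h h' h1 h2 (Or.inr hv)⟩
  · have h1 : u ∉ P := hu ▸ hxP
    have h2 : v ∉ P := fun h => hd h hv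
    exact Or.inr ⟨h1, h2, Or.inr hv, side1 hT hun h.symm h' h1 h2 (Or.inr hv)⟩
  · exact absurd ⟨hu, hv⟩ hne'
  · exact absurd (hu.trans hv.symm) huv
  · have h1 : u ∉ Q := hu ▸ hyQ
    have h2 : v ∉ Q := hd hv
    exact Or.inl ⟨h1, h2, Or.inr hv, side1 hT hun h h' h1 h2 (Or.inr hv)⟩
  · have h1 : u ∉ P := hu ▸ hyP
    have h2 : v ∉ P := fun h => hd h hv
    exact Or.inr ⟨h1, h2, Or.inr hv, side1 hT hun h.symm h' h1 h2 (Or.inr hv)⟩
  · have h1 : u ∉ Q := hd hu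
    have h2 : v ∉ Q := hv ▸ hxQ
    exact Or.inl ⟨h1, h2, Or.inl hu, side1 hT hun h h' h1 h2 (Or.inl hu)⟩
  · have h1 : u ∉ Q := hd hu
    have h2 : v ∉ Q := hv ▸ hyQ
    exact Or.inl ⟨h1, h2, Or.inl hu, side1 hT hun h h' h1 h2 (Or.inl hu)⟩
  · have h1 : u ∉ Q := hd hu
    have h2 : v ∉ Q := hd hv
    exact Or.inl ⟨h1, h2, Or.inl hu, side1 hT hun h h' h1 h2 (Or.inl hu)⟩
  · exact absurd ⟨hu, hv⟩ hn1
  · have h1 : u ∉ P := fun h => hd h hu
    have h2 : v ∉ P := hv ▸ hxP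
    exact Or.inr ⟨h1, h2, Or.inl hu, side1 hT hun h.symm h' h1 h2 (Or.inl hu)⟩
  · have h1 : u ∉ P := fun h => hd h hu
    have h2 : v ∉ P := hv ▸ hyP
    exact Or.inr ⟨h1, h2, Or.inl hu, side1 hT hun h.symm h' h1 h2 (Or.inl hu)⟩
  · exact absurd ⟨hu, hv⟩ hn2
  · have h1 : u ∉ P := fun h => hd h hu
    have h2 : v ∉ P := fun h => hd h hv
    exact Or.inr ⟨h1, h2, Or.inl hu, side1 hT hun h.symm h' h1 h2 (Or.inl hu)⟩

/-- **lift** of a separation of a reduction. -/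
theorem lift (h : Sep E Y x y P Q) (h' : Sep (red E Y x y Q) (Y \ Q) u v P' Q') :
    (Sep E Y u v (P' ∪ Q) Q' ∧ x ∉ Q' ∧ y ∉ Q') ∨ (Sep E Y u v P' (Q' ∪ Q) ∧ x ∉ P' ∧ y ∉ P') := by
  have hd := Finset.disjoint_left.1 h.dis
  have hd' := Finset.disjoint_left.1 h'.dis
  have hY' : ∀ a, (a ∈ Y ∧ a ∉ Q) ↔ a = u ∨ a = v ∨ a ∈ P' ∨ a ∈ Q' := by
    intro a
    rw [← Sep.mem h' a, mem_sdiff]
  have hPQ : ∀ a ∈ P', a ∉ Q := fun a ha => ((hY' a).2 (Or.inr (Or.inr (Or.inl ha)))).2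
  have hQQ : ∀ a ∈ Q', a ∉ Q := fun a ha => ((hY' a).2 (Or.inr (Or.inr (Or.inr ha)))).2
  have hPY : ∀ a ∈ P', a ∈ Y := fun a ha => ((hY' a).2 (Or.inr (Or.inr (Or.inl ha)))).1
  have hQY : ∀ a ∈ Q', a ∈ Y := fun a ha => ((hY' a).2 (Or.inr (Or.inr (Or.inr ha)))).1
  have huQ : u ∉ Q := ((hY' u).2 (Or.inl rfl)).2
  have hvQ : v ∉ Q := ((hY' v).2 (Or.inr (Or.inl rfl))).2
  have huY : u ∈ Y := ((hY' u).2 (Or.inl rfl)).1
  have hvY : v ∈ Y := ((hY' v).2 (Or.inr (Or.inl rfl))).1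
  have hxy : s(x, y) ∈ red E Y x y Q := mem_red.2 (Or.inl rfl)
  have hn1 : ¬ (x ∈ P' ∧ y ∈ Q') := fun hc => h'.noE x hc.1 y hc.2 hxy
  have hn2 : ¬ (x ∈ Q' ∧ y ∈ P') := fun hc => Sep.noE' h' hc.1 hc.2 hxy
  have hQsub : ∀ a ∈ Q, a ∈ Y := fun a ha => (Sep.mem h a).2 (Or.inr (Or.inr (Or.inr ha)))
  -- edges of `E` between `P'` and `Q'`
  have hE' : ∀ a ∈ P', ∀ b ∈ Q', s(a, b) ∉ E := by
    intro a ha b hb hab
    exact h'.noE a ha b hb (mem_red.2 (Or.inr ⟨hab, ⟨hPY a ha, hPQ a ha⟩, ⟨hQY b hb, hQQ b hb⟩⟩))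
  -- edges at `Q`
  have hEQ : ∀ a ∈ Q, ∀ b ∈ Y, b ∉ Q → b ≠ x → b ≠ y → s(a, b) ∉ E := by
    intro a ha b hbY hbQ hbx hby
    rcases (Sep.mem h b).1 hbY with h1 | h1 | h1 | h1
    · exact absurd h1 hbx
    · exact absurd h1 hby
    · exact Sep.noE' h ha h1
    · exact absurd h1 hbQ
  by_cases hc : x ∉ Q' ∧ y ∉ Q'
  · left
    refine ⟨mkSep h'.ne ?_ h'.xQ ?_ h'.yQ ?_ h'.Q0 ?_ ?_ ?_, hc⟩
    · rw [mem_union, not_or]
      exact ⟨h'.xP, huQ⟩
    · rw [mem_union, not_or]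
      exact ⟨h'.yP, hvQ⟩
    · exact h'.P0.mono subset_union_left
    · intro a ha haQ
      rcases mem_union.1 ha with ha | ha
      · exact hd' ha haQ
      · exact hQQ a haQ ha
    · intro a
      constructor
      · intro ha
        by_cases haQ : a ∈ Q
        · simp [haQ]
        · rcases (hY' a).1 ⟨ha, haQ⟩ with h1 | h1 | h1 | h1 <;> simp [h1]
      · rintro (rfl | rfl | ha | ha)
        · exact huY
        · exact hvY
        · rcases mem_union.1 ha with ha | ha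
          · exact hPY a ha
          · exact hQsub a ha
        · exact hQY a ha
    · intro a ha b hb
      rcases mem_union.1 ha with ha | ha
      · exact hE' a ha b hb
      · refine hEQ a ha b (hQY b hb) (hQQ b hb) ?_ ?_
        · rintro rfl
          exact hc.1 hb
        · rintro rfl
          exact hc.2 hb
  · right
    have hxP' : x ∉ P' := by
      intro h1
      apply hc
      refine ⟨fun h2 => hd' h1 h2, fun h2 => hn1 ⟨h1, h2⟩⟩
    have hyP' : y ∉ P' := by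
      intro h1
      apply hc
      refine ⟨fun h2 => hn2 ⟨h2, h1⟩, fun h2 => hd' h1 h2⟩
    refine ⟨mkSep h'.ne h'.xP ?_ h'.yP ?_ h'.P0 ?_ ?_ ?_ ?_, hxP', hyP'⟩
    · rw [mem_union, not_or]
      exact ⟨h'.xQ, huQ⟩
    · rw [mem_union, not_or]
      exact ⟨h'.yQ, hvQ⟩
    · exact h'.Q0.mono subset_union_left
    · intro a ha haQ
      rcases mem_union.1 haQ with h1 | h1
      · exact hd' ha h1
      · exact hPQ a ha h1
    · intro a
      constructor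
      · intro ha
        by_cases haQ : a ∈ Q
        · simp [haQ]
        · rcases (hY' a).1 ⟨ha, haQ⟩ with h1 | h1 | h1 | h1 <;> simp [h1]
      · rintro (rfl | rfl | ha | ha)
        · exact huY
        · exact hvY
        · exact hPY a ha
        · rcases mem_union.1 ha with ha | ha
          · exact hQY a ha
          · exact hQsub a ha
    · intro a ha b hb
      rcases mem_union.1 hb with hb | hb
      · exact hE' a ha b hb
      · rw [Sym2.eq_swap]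
        refine hEQ b hb a (hPY a ha) (hPQ a ha) ?_ ?_
        · rintro rfl
          exact hxP' ha
        · rintro rfl
          exact hyP' ha

/-- an uncrossed pair stays uncrossed in a reduction. -/
theorem unc_red (hun : Unc E Y x y) (h' : Sep E Y u v P' Q') :
    Unc (red E Y u v Q') (Y \ Q') x y := by
  intro a b P2 Q2 hs hc
  rcases lift h' hs with ⟨h1, -, -⟩ | ⟨h1, -, -⟩
  · exact hun a b _ _ h1 ⟨mem_union_left _ hc.1, hc.2⟩
  · exact hun a b _ _ h1 ⟨hc.1, mem_union_left _ hc.2⟩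

end LD7
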